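import Pool.Agent.K4H75.OS.Spec

/-!
# Piece EUL of MP_195d30_co: the Euler inequality for a collapsible set of triangles
-/

set_option autoImplicit false

namespace Pool.Agent.K4H75.OS

open Finset

namespace E71

open Classical in
/-- faces times edges -/
noncomputable def MA {n : ℕ} (A E : Finset (Finset (Fin n))) : Matrix A E (ZMod 2) :=
  fun f e => if e.1 ⊆ f.1 then 1 else 0

open Classical in
/-- edges times vertices -/
noncomputable def NA {n : ℕ} (E : Finset (Finset (Fin n))) (S : Finset (Fin n)) : Matrix E S (ZMod 2) :=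
  fun e v => if v.1 ∈ e.1 then 1 else 0

theorem rows {n : ℕ} (A E : Finset (Finset (Fin n)))
    (h : ∀ B ⊆ A, B.Nonempty → ∃ e ∈ E, (B.filter fun f => e ⊆ f).card = 1) :
    LinearIndependent (ZMod 2) (MA A E).row := by
  classical
  rw [Fintype.linearIndependent_iff]
  intro c hc f
  by_contra hf
  obtain ⟨B, hB⟩ : ∃ B : Finset (Finset (Fin n)), B = (univ.filter fun g : A => c g ≠ 0).map
    (Function.Embedding.subtype _) := ⟨_, rfl⟩
  have hBA : B ⊆ A := by
    intro g hg
    rw [hB] at hg
    simp only [mem_map, mem_filter] at hg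
    obtain ⟨x, -, rfl⟩ := hg
    exact x.2
  obtain ⟨e, he, h1⟩ := h B hBA ⟨f.1, by
    rw [hB]; exact mem_map.2 ⟨f, mem_filter.2 ⟨mem_univ _, hf⟩, rfl⟩⟩
  have h2 := congrFun hc ⟨e, he⟩
  rw [Finset.sum_apply] at h2
  obtain ⟨g, hg⟩ := card_eq_one.1 h1
  have hgB : g ∈ B ∧ e ⊆ g := by
    have : g ∈ B.filter fun f => e ⊆ f := by rw [hg]; exact mem_singleton_self _
    exact mem_filter.1 this
  rw [sum_eq_single (⟨g, hBA hgB.1⟩ : A)] at h2
  · have h3 : c ⟨g, hBA hgB.1⟩ ≠ 0 := by
      have h4 := hgB.1
      rw [hB] at h4
      simp only [mem_map, mem_filter] at h4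
      obtain ⟨x, hx, hxg⟩ := h4
      have : x = ⟨g, hBA hgB.1⟩ := Subtype.ext hxg
      rw [← this]
      exact hx.2
    apply h3
    simpa [MA, Matrix.row, hgB.2] using h2
  · intro b _ hb
    by_cases hc0 : c b = 0
    · simp [hc0]
    · have h5 : b.1 ∈ B := by
        rw [hB]; exact mem_map.2 ⟨b, mem_filter.2 ⟨mem_univ _, hc0⟩, rfl⟩
      have h6 : ¬ e ⊆ b.1 := by
        intro h7
        have : b.1 ∈ B.filter fun f => e ⊆ f := mem_filter.2 ⟨h5, h7⟩
        rw [hg, mem_singleton] at this
        exact hb (Subtype.ext this)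
      simp [MA, Matrix.row, h6]
  · intro hn
    exact absurd (mem_univ _) hn

end E71

theorem eul : StEul := by
  classical
  intro n G S A hA hB
  obtain ⟨E, hE⟩ : ∃ E : Finset (Finset (Fin n)), E = (edges G).filter fun e => e ⊆ S := ⟨_, rfl⟩
  rw [← hE]
  have hEc : ∀ e ∈ E, e.card = 2 ∧ (∀ a ∈ e, ∀ b ∈ e, a ≠ b → G.Adj a b) ∧ e ⊆ S := by
    intro e he
    rw [hE] at he
    simp only [edges, mem_filter, mem_powersetCard] at he
    exact ⟨he.1.1.2, he.1.2, he.2⟩
  have hEm : ∀ e : Finset (Fin n), e.card = 2 → (∀ a ∈ e, ∀ b ∈ e, a ≠ b → G.Adj a b) → e ⊆ S →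
      e ∈ E := by
    intro e h1 h2 h3
    rw [hE]
    simp only [edges, mem_filter, mem_powersetCard]
    exact ⟨⟨⟨subset_univ _, h1⟩, h2⟩, h3⟩
  have hrow : LinearIndependent (ZMod 2) (E71.MA A E).row := by
    apply E71.rows
    intro B hBA hBne
    obtain ⟨e, he, h1⟩ := hB B hBA hBne
    refine ⟨e, ?_, h1⟩
    rw [hE, mem_filter]
    refine ⟨he, ?_⟩
    obtain ⟨g, hg⟩ := card_eq_one.1 h1
    have hgB : g ∈ B ∧ e ⊆ g := by
      have : g ∈ B.filter fun f => e ⊆ f := by rw [hg]; exact mem_singleton_self _
      exact mem_filter.1 this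
    exact hgB.2.trans (hA g (hBA hgB.1)).2.1
  have hMr : (E71.MA A E).rank = A.card := by
    rw [hrow.rank_matrix, Fintype.card_coe]
  have hMN : E71.MA A E * E71.NA E S = 0 := by
    ext f v
    rw [Matrix.mul_apply, Matrix.zero_apply]
    obtain ⟨h3, hfS, hadj⟩ := hA f.1 f.2
    have h1 : ∑ e : E, E71.MA A E f e * E71.NA E S e v =
        ((E.filter fun e => e ⊆ f.1 ∧ v.1 ∈ e).card : ZMod 2) := by
      rw [card_filter, Nat.cast_sum, ← Finset.sum_coe_sort E]
      refine sum_congr rfl fun e _ => ?_
      simp only [E71.MA, E71.NA]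
      split_ifs <;> simp_all
    rw [h1]
    by_cases hv : v.1 ∈ f.1
    · have h2 : (E.filter fun e => e ⊆ f.1 ∧ v.1 ∈ e) =
          (f.1.erase v.1).image (fun w => {v.1, w}) := by
        ext e
        simp only [mem_filter, mem_image, mem_erase]
        constructor
        · rintro ⟨he, hef, hve⟩
          obtain ⟨hc, -, -⟩ := hEc e he
          obtain ⟨w, hw⟩ : ∃ w, e.erase v.1 = {w} := by
            apply card_eq_one.1
            rw [card_erase_of_mem hve, hc]
          have hwe : w ∈ e.erase v.1 := by rw [hw]; exact mem_singleton_self _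
          refine ⟨w, ⟨(mem_erase.1 hwe).1, hef (mem_erase.1 hwe).2⟩, ?_⟩
          rw [← insert_erase hve, hw]
        · rintro ⟨w, ⟨hwv, hwf⟩, rfl⟩
          have hsub : ({v.1, w} : Finset (Fin n)) ⊆ f.1 := by
            intro x hx
            rw [mem_insert, mem_singleton] at hx
            rcases hx with rfl | rfl
            · exact hv
            · exact hwf
          refine ⟨hEm _ (card_pair (Ne.symm hwv)) (fun a ha b hb hab => hadj a (hsub ha) b (hsub hb) hab)
            (hsub.trans hfS), hsub, mem_insert_self _ _⟩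
      rw [h2, card_image_of_injOn, card_erase_of_mem hv, h3]
      · rfl
      · intro w hw w' hw' h
        simp only [coe_erase, Set.mem_sdiff, mem_coe, Set.mem_singleton_iff] at hw hw'
        have h5 : w ∈ ({v.1, w'} : Finset (Fin n)) := by
          have : w ∈ ({v.1, w} : Finset (Fin n)) := by simp
          rwa [show ({v.1, w} : Finset (Fin n)) = {v.1, w'} from h] at this
        rw [mem_insert, mem_singleton] at h5
        exact h5.resolve_left hw.2
    · have h2 : (E.filter fun e => e ⊆ f.1 ∧ v.1 ∈ e) = ∅ := by
        rw [filter_eq_empty_iff]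
        rintro e - ⟨h4, h5⟩
        exact hv (h4 h5)
      rw [h2]
      simp
  have hr := Matrix.rank_add_rank_le_card_of_mul_eq_zero hMN
  rw [hMr, Fintype.card_coe] at hr
  -- the rank of the second matrix
  have hN : S.card ≤ (E71.NA E S).rank + comps G S := by
    have h1 := LinearMap.finrank_range_add_finrank_ker (E71.NA E S).mulVecLin
    have h2 : Module.finrank (ZMod 2) (LinearMap.ker (E71.NA E S).mulVecLin) ≤ comps G S := by
      have hfin : Fintype (G.induce (S : Set (Fin n))).ConnectedComponent := Fintype.ofFinite _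
      let φ : LinearMap.ker (E71.NA E S).mulVecLin →ₗ[ZMod 2]
          ((G.induce (S : Set (Fin n))).ConnectedComponent → ZMod 2) :=
        { toFun := fun x c => x.1 ⟨(c.out : (S : Set (Fin n))).1, (c.out : (S : Set (Fin n))).2⟩
          map_add' := fun x y => rfl
          map_smul' := fun a x => rfl }
      have hconst : ∀ x : LinearMap.ker (E71.NA E S).mulVecLin, ∀ a b : (S : Set (Fin n)),
          (G.induce (S : Set (Fin n))).Reachable a b → x.1 ⟨a.1, a.2⟩ = x.1 ⟨b.1, b.2⟩ := by
        intro x a b hab
        obtain ⟨p⟩ := hab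
        induction p with
        | nil => rfl
        | @cons u v w huv _ ih =>
          rw [← ih]
          have huv' : G.Adj u.1 v.1 := huv
          have he : ({u.1, v.1} : Finset (Fin n)) ∈ E := by
            refine hEm _ (card_pair huv'.ne) ?_ ?_
            · intro a ha b hb hab
              rw [mem_insert, mem_singleton] at ha hb
              rcases ha with rfl | rfl <;> rcases hb with rfl | rfl
              · exact absurd rfl hab
              · exact huv'
              · exact huv'.symm
              · exact absurd rfl hab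
            · intro a ha
              rw [mem_insert, mem_singleton] at ha
              rcases ha with rfl | rfl
              · exact u.2
              · exact v.2
          have hx := x.2
          rw [LinearMap.mem_ker] at hx
          have hx' := congrFun hx ⟨_, he⟩
          rw [Matrix.mulVecLin_apply, Matrix.mulVec, dotProduct] at hx'
          have hne : (⟨u.1, u.2⟩ : S) ≠ ⟨v.1, v.2⟩ := fun h => huv'.ne (congrArg Subtype.val h)
          have hs : ∑ i : S, E71.NA E S ⟨_, he⟩ i * x.1 i = x.1 ⟨u.1, u.2⟩ + x.1 ⟨v.1, v.2⟩ := by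
            rw [← sum_pair hne]
            symm
            rw [← sum_subset (subset_univ ({⟨u.1, u.2⟩, ⟨v.1, v.2⟩} : Finset S))]
            · refine sum_congr rfl fun i hi => ?_
              rw [mem_insert, mem_singleton] at hi
              have : i.1 ∈ ({u.1, v.1} : Finset (Fin n)) := by
                rcases hi with rfl | rfl <;> simp
              simp only [E71.NA, if_pos this, one_mul]
            · intro i _ hi
              have : ¬ i.1 ∈ ({u.1, v.1} : Finset (Fin n)) := by
                intro h
                apply hi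
                rw [mem_insert, mem_singleton] at h ⊢
                rcases h with h | h
                · exact Or.inl (Subtype.ext h)
                · exact Or.inr (Subtype.ext h)
              simp only [E71.NA, if_neg this, zero_mul]
          rw [hs] at hx'
          have h7 : x.1 ⟨u.1, u.2⟩ + x.1 ⟨v.1, v.2⟩ = 0 := hx'
          have h8 := eq_neg_of_add_eq_zero_left h7
          rw [h8, ZMod.neg_eq_self_mod_two]
      have hφ : Function.Injective φ := by
        intro x y hxy
        apply Subtype.ext
        funext v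
        have h3 := congrFun hxy ((G.induce (S : Set (Fin n))).connectedComponentMk ⟨v.1, v.2⟩)
        have h4 : ∀ z : LinearMap.ker (E71.NA E S).mulVecLin,
            φ z ((G.induce (S : Set (Fin n))).connectedComponentMk ⟨v.1, v.2⟩) = z.1 v := by
          intro z
          exact hconst z _ ⟨v.1, v.2⟩ (SimpleGraph.ConnectedComponent.exact (Quot.out_eq _))
        rw [h4, h4] at h3
        exact h3
      have h5 := LinearMap.finrank_le_finrank_of_injective hφ
      rw [Module.finrank_fintype_fun_eq_card] at h5
      unfold comps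
      rw [Nat.card_eq_fintype_card]
      exact h5
    have h3 : Module.finrank (ZMod 2) (S → ZMod 2) = S.card := by
      rw [Module.finrank_fintype_fun_eq_card, Fintype.card_coe]
    rw [h3] at h1
    have h4 : (E71.NA E S).rank = Module.finrank (ZMod 2) (LinearMap.range (E71.NA E S).mulVecLin) := rfl
    omega
  omega

end Pool.Agent.K4H75.OS
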